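import Mathlib

/-!
# `k`-spaces and `k_R`-spaces
-/

namespace Pool.Agent.Lib.MP_a29c66_gt

/-- `Z` is a `k`-space: a set `F` is closed whenever `F ∩ K` is closed in `K` for every compact
subspace `K`. -/
def IsKSpace (Z : Type*) [TopologicalSpace Z] : Prop :=
  ∀ F : Set Z, (∀ K : Set Z, IsCompact K → IsClosed ((fun z : K => (z : Z)) ⁻¹' F)) → IsClosed F

/-- `Z` is a `k_R`-space: `Z` is Tychonoff and every real function on `Z` whose restriction to
each compact subspace is continuous is continuous. -/
def IsKRSpace (Z : Type*) [TopologicalSpace Z] : Prop :=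
  T35Space Z ∧ ∀ f : Z → ℝ, (∀ K : Set Z, IsCompact K → ContinuousOn f K) → Continuous f

end Pool.Agent.Lib.MP_a29c66_gt
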