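import Pool.Agent.Lib.MP_a29c66_gt.Defs

/-!
# The Fréchet fan
-/

open Set Filter Topology

namespace Pool.Agent.Lib.MP_a29c66_gt

/-- The Fréchet fan: `none` is the vertex and `some (n, m)` is the `m`-th point of the `n`-th
spine. -/
def Fan : Type := Option (ℕ × ℕ)

namespace Fan

/-- the vertex -/
def inf : Fan := none
/-- the points of the spines -/
def pt (n m : ℕ) : Fan := some (n, m)

lemma cases (x : Fan) : x = inf ∨ ∃ n m, x = pt n m := by
  cases x with
  | none => exact Or.inl rfl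
  | some p => exact Or.inr ⟨p.1, p.2, rfl⟩

lemma pt_ne_inf (n m : ℕ) : pt n m ≠ inf := fun h => Option.some_ne_none _ h

lemma pt_inj {n m n' m' : ℕ} : pt n m = pt n' m' ↔ n = n' ∧ m = m' := by
  constructor
  · intro h
    have := Option.some.inj h
    exact Prod.mk.inj this
  · rintro ⟨rfl, rfl⟩
    rfl

instance : Countable Fan := inferInstanceAs (Countable (Option (ℕ × ℕ)))

instance : TopologicalSpace Fan where
  IsOpen U := inf ∈ U → ∀ n, {m | pt n m ∉ U}.Finite
  isOpen_univ := by
    intro _ n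
    simp
  isOpen_inter := by
    intro U V hU hV h n
    refine ((hU h.1 n).union (hV h.2 n)).subset ?_
    intro m hm
    by_cases h1 : pt n m ∈ U
    · exact Or.inr fun h2 => hm ⟨h1, h2⟩
    · exact Or.inl h1
  isOpen_sUnion := by
    rintro S hS ⟨U, hU, h⟩ n
    refine (hS U hU h n).subset ?_
    intro m hm h1
    exact hm ⟨U, hU, h1⟩

lemma isOpen_iff {U : Set Fan} : IsOpen U ↔ (inf ∈ U → ∀ n, {m | pt n m ∉ U}.Finite) := Iff.rfl

lemma isOpen_of_notMem {U : Set Fan} (h : inf ∉ U) : IsOpen U := fun h' => absurd h' h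

/-- basic neighbourhoods of the vertex -/
def nb (g : ℕ → ℕ) : Set Fan := {x | x = inf ∨ ∃ n m, g n ≤ m ∧ x = pt n m}

lemma inf_mem_nb (g : ℕ → ℕ) : inf ∈ nb g := Or.inl rfl

lemma pt_mem_nb {g : ℕ → ℕ} {n m : ℕ} : pt n m ∈ nb g ↔ g n ≤ m := by
  constructor
  · rintro (h | ⟨n', m', h, h'⟩)
    · exact absurd h (pt_ne_inf n m)
    · obtain ⟨rfl, rfl⟩ := pt_inj.mp h'
      exact h
  · intro h
    exact Or.inr ⟨n, m, h, rfl⟩

lemma isOpen_nb (g : ℕ → ℕ) : IsOpen (nb g) := by
  intro _ n
  refine (Set.finite_lt_nat (g n)).subset ?_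
  intro m hm
  by_contra h
  exact hm (pt_mem_nb.mpr (not_lt.mp h))

lemma isClopen_nb (g : ℕ → ℕ) : IsClopen (nb g) :=
  ⟨⟨isOpen_of_notMem fun h => h (inf_mem_nb g)⟩, isOpen_nb g⟩

lemma exists_nb_subset {U : Set Fan} (hU : IsOpen U) (h : inf ∈ U) : ∃ g, nb g ⊆ U := by
  have h1 : ∀ n, ∃ M, ∀ m, M ≤ m → pt n m ∈ U := by
    intro n
    obtain ⟨M, hM⟩ := (hU h n).bddAbove
    refine ⟨M + 1, fun m hm => ?_⟩
    by_contra h'
    have := hM h'
    omega
  choose g hg using h1
  refine ⟨g, ?_⟩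
  rintro x (rfl | ⟨n, m, h', rfl⟩)
  · exact h
  · exact hg n m h'

lemma isClopen_singleton (n m : ℕ) : IsClopen ({pt n m} : Set Fan) := by
  refine ⟨⟨?_⟩, isOpen_of_notMem fun h => pt_ne_inf n m (mem_singleton_iff.mp h).symm⟩
  intro _ n'
  refine (Set.finite_singleton m).subset ?_
  intro m' hm'
  simp only [mem_compl_iff, not_not, mem_ofPred_eq] at hm'
  exact (pt_inj.mp (mem_singleton_iff.mp hm')).2

lemma isTopologicalBasis_clopen :
    TopologicalSpace.IsTopologicalBasis {s : Set Fan | IsClopen s} := by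
  refine TopologicalSpace.isTopologicalBasis_of_isOpen_of_nhds (fun s hs => hs.2) ?_
  intro x U hx hU
  rcases cases x with rfl | ⟨n, m, rfl⟩
  · obtain ⟨g, hg⟩ := exists_nb_subset hU hx
    exact ⟨nb g, isClopen_nb g, inf_mem_nb g, hg⟩
  · exact ⟨{pt n m}, isClopen_singleton n m, rfl, singleton_subset_iff.mpr hx⟩

instance : T1Space Fan := by
  refine ⟨fun x => ?_⟩
  rcases cases x with rfl | ⟨n, m, rfl⟩
  · exact ⟨isOpen_of_notMem fun h => h rfl⟩
  · exact (isClopen_singleton n m).1

instance : T35Space Fan where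
  toCompletelyRegularSpace :=
    CompletelyRegularSpace.of_isTopologicalBasis_clopens isTopologicalBasis_clopen

instance : FrechetUrysohnSpace Fan := by
  refine ⟨fun s x hx => ?_⟩
  by_cases hxs : x ∈ s
  · exact subset_seqClosure hxs
  rcases cases x with rfl | ⟨n, m, rfl⟩
  · -- some spine meets `s` in an infinite set
    have : ∃ n, {m | pt n m ∈ s}.Infinite := by
      by_contra hcon
      simp only [not_exists, Set.not_infinite] at hcon
      have hopen : IsOpen sᶜ := by
        intro _ n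
        refine (hcon n).subset ?_
        intro m hm
        simpa using hm
      have := mem_closure_iff.mp hx sᶜ hopen hxs
      simp at this
    obtain ⟨n, hn⟩ := this
    refine ⟨fun j => pt n (Nat.nth (fun m => pt n m ∈ s) j), ?_, ?_⟩
    · intro j
      exact Nat.nth_mem_of_infinite hn j
    · rw [tendsto_nhds]
      intro U hU hinf
      have hfin := hU hinf n
      obtain ⟨M, hM⟩ := hfin.bddAbove
      filter_upwards [eventually_gt_atTop M] with j hj
      by_contra h'
      have h1 := hM h'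
      have h2 : j ≤ Nat.nth (fun m => pt n m ∈ s) j := (Nat.nth_strictMono hn).id_le j
      omega
  · have := mem_closure_iff.mp hx {pt n m} (isClopen_singleton n m).2 rfl
    obtain ⟨y, hy1, hy2⟩ := this
    rw [mem_singleton_iff] at hy1
    exact absurd (hy1 ▸ hy2) hxs

/-- a spine converges to the vertex -/
lemma tendsto_pt (n : ℕ) {u : ℕ → ℕ} (hu : Tendsto u atTop atTop) :
    Tendsto (fun j => pt n (u j)) atTop (𝓝 inf) := by
  rw [tendsto_nhds]
  intro U hU hinf
  obtain ⟨g, hg⟩ := exists_nb_subset hU hinf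
  filter_upwards [hu.eventually_ge_atTop (g n)] with j hj
  exact hg (pt_mem_nb.mpr hj)

end Fan

end Pool.Agent.Lib.MP_a29c66_gt
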