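import Pool.Agent.Lib.MP_a29c66_gt.Defs

/-!
# Countably many Mrówka spaces converging to a point
-/

open Set Filter Topology

namespace Pool.Agent.Lib.MP_a29c66_gt

/-- an infinite maximal almost disjoint family of infinite subsets of `ℕ` -/
structure IsMAD (𝒜 : Set (Set ℕ)) : Prop where
  inf : ∀ a ∈ 𝒜, a.Infinite
  ad : ∀ a ∈ 𝒜, ∀ b ∈ 𝒜, a ≠ b → (a ∩ b).Finite
  max : ∀ s : Set ℕ, s.Infinite → ∃ a ∈ 𝒜, (a ∩ s).Infinite
  infinite : ∃ f : ℕ → Set ℕ, Function.Injective f ∧ ∀ m, f m ∈ 𝒜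

lemma exists_isMAD : ∃ 𝒜 : Set (Set ℕ), IsMAD 𝒜 := by
  let c : ℕ → Set ℕ := fun m => range fun l => Nat.pair m l
  have hcinf : ∀ m, (c m).Infinite := fun m =>
    infinite_range_of_injective fun l l' h => (Nat.pair_eq_pair.mp h).2
  have hcdisj : ∀ m m', m ≠ m' → c m ∩ c m' = ∅ := by
    intro m m' h
    rw [← not_nonempty_iff_eq_empty]
    rintro ⟨k, ⟨l, rfl⟩, l', h'⟩
    exact h (Nat.pair_eq_pair.mp h').1.symm
  have hcinj : Function.Injective c := by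
    intro m m' h
    by_contra hne
    have h1 := hcdisj m m' hne
    rw [← h, inter_self] at h1
    exact (hcinf m).nonempty.ne_empty h1
  let S : Set (Set (Set ℕ)) := {𝒜 | (∀ a ∈ 𝒜, a.Infinite) ∧
    ∀ a ∈ 𝒜, ∀ b ∈ 𝒜, a ≠ b → (a ∩ b).Finite}
  have h0 : range c ∈ S := by
    refine ⟨?_, ?_⟩
    · rintro _ ⟨m, rfl⟩
      exact hcinf m
    · rintro _ ⟨m, rfl⟩ _ ⟨m', rfl⟩ h
      have : m ≠ m' := fun h' => h (by rw [h'])
      rw [hcdisj m m' this]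
      exact finite_empty
  obtain ⟨𝒜, h𝒜c, h𝒜⟩ := zorn_subset_nonempty S (by
    intro C hC hchain _
    refine ⟨⋃₀ C, ⟨?_, ?_⟩, fun s hs => subset_sUnion_of_mem hs⟩
    · rintro a ⟨𝒜, h𝒜, ha⟩
      exact (hC h𝒜).1 a ha
    · rintro a ⟨𝒜, h𝒜, ha⟩ b ⟨ℬ, hℬ, hb⟩ hab
      rcases hchain.total h𝒜 hℬ with h | h
      · exact (hC hℬ).2 a (h ha) b hb hab
      · exact (hC h𝒜).2 a ha b (h hb) hab) (range c) h0
  refine ⟨𝒜, h𝒜.prop.1, h𝒜.prop.2, ?_, c, hcinj, fun m => h𝒜c ⟨m, rfl⟩⟩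
  intro s hs
  by_contra hcon
  simp only [not_exists, not_and, Set.not_infinite] at hcon
  have hins : insert s 𝒜 ∈ S := by
    refine ⟨?_, ?_⟩
    · rintro a (rfl | ha)
      · exact hs
      · exact h𝒜.prop.1 a ha
    · rintro a (rfl | ha) b (rfl | hb) hab
      · exact absurd rfl hab
      · rw [inter_comm]
        exact hcon b hb
      · exact hcon a ha
      · exact h𝒜.prop.2 a ha b hb hab
  have hsA : s ∈ 𝒜 := h𝒜.le_of_ge hins (subset_insert s 𝒜) (mem_insert s 𝒜)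
  have := hcon s hsA
  rw [inter_self] at this
  exact hs this

/-- The space `Y`: countably many copies of the Mrówka space `Ψ(𝒜)` and a point at infinity. -/
def PsiSum (𝒜 : Set (Set ℕ)) : Type := Option (ℕ × (ℕ ⊕ 𝒜))

namespace PsiSum

variable {𝒜 : Set (Set ℕ)}

/-- the point at infinity -/
def inf : PsiSum 𝒜 := none
/-- the isolated points -/
def iso (i k : ℕ) : PsiSum 𝒜 := some (i, Sum.inl k)
/-- the points given by elements of the family -/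
def lim (i : ℕ) (a : 𝒜) : PsiSum 𝒜 := some (i, Sum.inr a)

lemma cases (x : PsiSum 𝒜) : x = inf ∨ (∃ i k, x = iso i k) ∨ ∃ i a, x = lim i a := by
  match x with
  | none => exact Or.inl rfl
  | some (i, Sum.inl k) => exact Or.inr (Or.inl ⟨i, k, rfl⟩)
  | some (i, Sum.inr a) => exact Or.inr (Or.inr ⟨i, a, rfl⟩)

lemma iso_ne_inf (i k : ℕ) : (iso i k : PsiSum 𝒜) ≠ inf := fun h => Option.some_ne_none _ h

lemma lim_ne_inf (i : ℕ) (a : 𝒜) : lim i a ≠ inf := fun h => Option.some_ne_none _ h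

lemma iso_ne_lim (i k j : ℕ) (a : 𝒜) : iso i k ≠ lim j a := by
  intro h
  have := (Prod.mk.inj (Option.some.inj h)).2
  exact Sum.inl_ne_inr this

lemma iso_inj {i k j l : ℕ} : (iso i k : PsiSum 𝒜) = iso j l ↔ i = j ∧ k = l := by
  constructor
  · intro h
    have := Prod.mk.inj (Option.some.inj h)
    exact ⟨this.1, Sum.inl_injective this.2⟩
  · rintro ⟨rfl, rfl⟩
    rfl

lemma lim_inj {i j : ℕ} {a b : 𝒜} : lim i a = lim j b ↔ i = j ∧ a = b := by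
  constructor
  · intro h
    have := Prod.mk.inj (Option.some.inj h)
    exact ⟨this.1, Sum.inr_injective this.2⟩
  · rintro ⟨rfl, rfl⟩
    rfl

instance : TopologicalSpace (PsiSum 𝒜) where
  IsOpen U := (∀ i (a : 𝒜), lim i a ∈ U → {k | k ∈ a.1 ∧ iso i k ∉ U}.Finite) ∧
    (inf ∈ U → ∃ N, ∀ i, N ≤ i → (∀ k, iso i k ∈ U) ∧ ∀ a, lim i a ∈ U)
  isOpen_univ := by
    refine ⟨fun i a _ => by simp, fun _ => ⟨0, fun i _ => by simp⟩⟩
  isOpen_inter := by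
    rintro U V ⟨hU1, hU2⟩ ⟨hV1, hV2⟩
    refine ⟨fun i a h => ?_, fun h => ?_⟩
    · refine ((hU1 i a h.1).union (hV1 i a h.2)).subset ?_
      rintro k ⟨hk, hk'⟩
      by_cases h1 : iso i k ∈ U
      · exact Or.inr ⟨hk, fun h2 => hk' ⟨h1, h2⟩⟩
      · exact Or.inl ⟨hk, h1⟩
    · obtain ⟨N, hN⟩ := hU2 h.1
      obtain ⟨M, hM⟩ := hV2 h.2
      refine ⟨max N M, fun i hi => ?_⟩
      have h1 := hN i ((le_max_left _ _).trans hi)
      have h2 := hM i ((le_max_right _ _).trans hi)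
      exact ⟨fun k => ⟨h1.1 k, h2.1 k⟩, fun a => ⟨h1.2 a, h2.2 a⟩⟩
  isOpen_sUnion := by
    intro S hS
    refine ⟨?_, ?_⟩
    · rintro i a ⟨U, hU, h⟩
      refine ((hS U hU).1 i a h).subset ?_
      rintro k ⟨hk, hk'⟩
      exact ⟨hk, fun h1 => hk' ⟨U, hU, h1⟩⟩
    · rintro ⟨U, hU, h⟩
      obtain ⟨N, hN⟩ := (hS U hU).2 h
      exact ⟨N, fun i hi => ⟨fun k => ⟨U, hU, (hN i hi).1 k⟩, fun a => ⟨U, hU, (hN i hi).2 a⟩⟩⟩

lemma isOpen_iff {U : Set (PsiSum 𝒜)} : IsOpen U ↔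
    (∀ i (a : 𝒜), lim i a ∈ U → {k | k ∈ a.1 ∧ iso i k ∉ U}.Finite) ∧
    (inf ∈ U → ∃ N, ∀ i, N ≤ i → (∀ k, iso i k ∈ U) ∧ ∀ a, lim i a ∈ U) := Iff.rfl

/-- neighbourhoods of infinity -/
def tail (N : ℕ) : Set (PsiSum 𝒜) :=
  {x | x = inf ∨ (∃ i k, N ≤ i ∧ x = iso i k) ∨ ∃ i a, N ≤ i ∧ x = lim i a}

/-- neighbourhoods of the points `lim i a` -/
def nb (i : ℕ) (a : 𝒜) (N : ℕ) : Set (PsiSum 𝒜) :=
  {x | x = lim i a ∨ ∃ k, k ∈ a.1 ∧ N ≤ k ∧ x = iso i k}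

lemma inf_mem_tail (N : ℕ) : (inf : PsiSum 𝒜) ∈ tail N := Or.inl rfl

lemma iso_mem_tail {N i k : ℕ} : (iso i k : PsiSum 𝒜) ∈ tail N ↔ N ≤ i := by
  constructor
  · rintro (h | ⟨j, l, h, h'⟩ | ⟨j, a, h, h'⟩)
    · exact absurd h (iso_ne_inf i k)
    · rw [(iso_inj.mp h').1]; exact h
    · exact absurd h' (iso_ne_lim i k j a)
  · intro h
    exact Or.inr (Or.inl ⟨i, k, h, rfl⟩)

lemma lim_mem_tail {N i : ℕ} {a : 𝒜} : lim i a ∈ tail N ↔ N ≤ i := by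
  constructor
  · rintro (h | ⟨j, l, h, h'⟩ | ⟨j, b, h, h'⟩)
    · exact absurd h (lim_ne_inf i a)
    · exact absurd h'.symm (iso_ne_lim j l i a)
    · rw [(lim_inj.mp h').1]; exact h
  · intro h
    exact Or.inr (Or.inr ⟨i, a, h, rfl⟩)

lemma inf_notMem_nb (i : ℕ) (a : 𝒜) (N : ℕ) : inf ∉ nb i a N := by
  rintro (h | ⟨k, _, _, h⟩)
  · exact lim_ne_inf i a h.symm
  · exact iso_ne_inf i k h.symm

lemma lim_mem_nb {i j : ℕ} {a b : 𝒜} {N : ℕ} : lim j b ∈ nb i a N ↔ j = i ∧ b = a := by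
  constructor
  · rintro (h | ⟨k, _, _, h⟩)
    · exact lim_inj.mp h
    · exact absurd h.symm (iso_ne_lim i k j b)
  · rintro ⟨rfl, rfl⟩
    exact Or.inl rfl

lemma iso_mem_nb {i j k : ℕ} {a : 𝒜} {N : ℕ} :
    iso j k ∈ nb i a N ↔ j = i ∧ k ∈ a.1 ∧ N ≤ k := by
  constructor
  · rintro (h | ⟨l, hl, hN, h⟩)
    · exact absurd h (iso_ne_lim j k i a)
    · obtain ⟨rfl, rfl⟩ := iso_inj.mp h
      exact ⟨rfl, hl, hN⟩
  · rintro ⟨rfl, h1, h2⟩
    exact Or.inr ⟨k, h1, h2, rfl⟩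

lemma isClopen_tail (N : ℕ) : IsClopen (tail N : Set (PsiSum 𝒜)) := by
  constructor
  · refine ⟨⟨fun i a h => ?_, fun h => absurd (inf_mem_tail N) h⟩⟩
    have : {k | k ∈ a.1 ∧ (iso i k : PsiSum 𝒜) ∉ (tail N)ᶜ} = ∅ := by
      ext k
      simp only [mem_compl_iff, not_not, mem_ofPred_eq, mem_empty_iff_false, iff_false, not_and]
      intro _ h'
      exact h (lim_mem_tail.mpr (iso_mem_tail.mp h'))
    rw [this]
    exact finite_empty
  · refine ⟨fun i a h => ?_, fun _ => ⟨N, fun i hi => ⟨fun k => iso_mem_tail.mpr hi,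
      fun a => lim_mem_tail.mpr hi⟩⟩⟩
    have : {k | k ∈ a.1 ∧ (iso i k : PsiSum 𝒜) ∉ tail N} = ∅ := by
      ext k
      simp only [mem_ofPred_eq, mem_empty_iff_false, iff_false, not_and, not_not]
      intro _
      exact iso_mem_tail.mpr (lim_mem_tail.mp h)
    rw [this]
    exact finite_empty

lemma isClopen_nb (h𝒜 : IsMAD 𝒜) (i : ℕ) (a : 𝒜) (N : ℕ) : IsClopen (nb i a N) := by
  constructor
  · refine ⟨⟨fun j b h => ?_, fun _ => ⟨i + 1, fun j hj => ⟨fun k hk => ?_, fun b hb => ?_⟩⟩⟩⟩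
    · by_cases hij : j = i
      · subst hij
        have hab : b ≠ a := fun h' => h (lim_mem_nb.mpr ⟨rfl, h'⟩)
        refine (h𝒜.ad b.1 b.2 a.1 a.2 (fun h' => hab (Subtype.ext h'))).subset ?_
        rintro k ⟨hk, hk'⟩
        simp only [mem_compl_iff, not_not] at hk'
        exact ⟨hk, (iso_mem_nb.mp hk').2.1⟩
      · have : {k | k ∈ b.1 ∧ (iso j k : PsiSum 𝒜) ∉ (nb i a N)ᶜ} = ∅ := by
          ext k
          simp only [mem_compl_iff, not_not, mem_ofPred_eq, mem_empty_iff_false, iff_false,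
            not_and]
          intro _ h'
          exact hij (iso_mem_nb.mp h').1
        rw [this]
        exact finite_empty
    · have := (iso_mem_nb.mp hk).1
      omega
    · have := (lim_mem_nb.mp hb).1
      omega
  · refine ⟨fun j b h => ?_, fun h => absurd h (inf_notMem_nb i a N)⟩
    obtain ⟨rfl, rfl⟩ := lim_mem_nb.mp h
    refine (Set.finite_lt_nat N).subset ?_
    rintro k ⟨hk, hk'⟩
    by_contra h'
    exact hk' (iso_mem_nb.mpr ⟨rfl, hk, not_lt.mp h'⟩)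

lemma isClopen_iso (i k : ℕ) : IsClopen ({iso i k} : Set (PsiSum 𝒜)) := by
  constructor
  · refine ⟨⟨fun j b _ => ?_, fun _ => ⟨i + 1, fun j hj => ⟨fun l hl => ?_, fun b hb => ?_⟩⟩⟩⟩
    · refine (Set.finite_singleton k).subset ?_
      rintro l ⟨_, hl⟩
      simp only [mem_compl_iff, not_not, mem_singleton_iff] at hl
      exact (iso_inj.mp hl).2
    · have := (iso_inj.mp (mem_singleton_iff.mp hl)).1
      omega
    · exact iso_ne_lim i k j b (mem_singleton_iff.mp hb).symm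
  · refine ⟨fun j b h => absurd (mem_singleton_iff.mp h).symm (iso_ne_lim i k j b),
      fun h => absurd (mem_singleton_iff.mp h).symm (iso_ne_inf i k)⟩

/-- the standard neighbourhood base -/
def B (x : PsiSum 𝒜) (N : ℕ) : Set (PsiSum 𝒜) :=
  match x with
  | none => tail N
  | some (i, Sum.inl k) => {iso i k}
  | some (i, Sum.inr a) => nb i a N

lemma mem_B (x : PsiSum 𝒜) (N : ℕ) : x ∈ B x N := by
  match x with
  | none => exact inf_mem_tail N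
  | some (i, Sum.inl k) => exact rfl
  | some (i, Sum.inr a) => exact lim_mem_nb.mpr ⟨rfl, rfl⟩

lemma isClopen_B (h𝒜 : IsMAD 𝒜) (x : PsiSum 𝒜) (N : ℕ) : IsClopen (B x N) := by
  match x with
  | none => exact isClopen_tail N
  | some (i, Sum.inl k) => exact isClopen_iso i k
  | some (i, Sum.inr a) => exact isClopen_nb h𝒜 i a N

lemma exists_B_subset {x : PsiSum 𝒜} {U : Set (PsiSum 𝒜)} (hU : IsOpen U) (hx : x ∈ U) :
    ∃ N, B x N ⊆ U := by
  match x with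
  | none =>
    obtain ⟨N, hN⟩ := hU.2 hx
    refine ⟨N, ?_⟩
    rintro y (rfl | ⟨i, k, h, rfl⟩ | ⟨i, a, h, rfl⟩)
    · exact hx
    · exact (hN i h).1 k
    · exact (hN i h).2 a
  | some (i, Sum.inl k) => exact ⟨0, singleton_subset_iff.mpr hx⟩
  | some (i, Sum.inr a) =>
    obtain ⟨M, hM⟩ := (hU.1 i a hx).bddAbove
    refine ⟨M + 1, ?_⟩
    rintro y (rfl | ⟨k, hk, hMk, rfl⟩)
    · exact hx
    · by_contra h
      have := hM ⟨hk, h⟩
      omega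

lemma nhds_hasBasis (h𝒜 : IsMAD 𝒜) (x : PsiSum 𝒜) :
    (𝓝 x).HasBasis (fun _ : ℕ => True) (B x) := by
  refine ⟨fun s => ?_⟩
  constructor
  · intro hs
    obtain ⟨U, hUs, hU, hx⟩ := mem_nhds_iff.mp hs
    obtain ⟨N, hN⟩ := exists_B_subset hU hx
    exact ⟨N, trivial, hN.trans hUs⟩
  · rintro ⟨N, _, hN⟩
    exact mem_of_superset ((isClopen_B h𝒜 x N).2.mem_nhds (mem_B x N)) hN

lemma firstCountable (h𝒜 : IsMAD 𝒜) : FirstCountableTopology (PsiSum 𝒜) :=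
  ⟨fun x => (nhds_hasBasis h𝒜 x).isCountablyGenerated⟩

lemma t1 (h𝒜 : IsMAD 𝒜) : T1Space (PsiSum 𝒜) := by
  rw [t1Space_iff_exists_open]
  intro x y hxy
  rcases cases x with rfl | ⟨i, k, rfl⟩ | ⟨i, a, rfl⟩
  · rcases cases y with rfl | ⟨j, l, rfl⟩ | ⟨j, b, rfl⟩
    · exact absurd rfl hxy
    · exact ⟨tail (j + 1), (isClopen_tail _).2, inf_mem_tail _,
        fun h => by have := iso_mem_tail.mp h; omega⟩
    · exact ⟨tail (j + 1), (isClopen_tail _).2, inf_mem_tail _,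
        fun h => by have := lim_mem_tail.mp h; omega⟩
  · exact ⟨{iso i k}, (isClopen_iso i k).2, rfl, fun h => hxy (mem_singleton_iff.mp h).symm⟩
  · rcases cases y with rfl | ⟨j, l, rfl⟩ | ⟨j, b, rfl⟩
    · exact ⟨nb i a 0, (isClopen_nb h𝒜 i a 0).2, lim_mem_nb.mpr ⟨rfl, rfl⟩,
        inf_notMem_nb i a 0⟩
    · exact ⟨nb i a (l + 1), (isClopen_nb h𝒜 i a _).2, lim_mem_nb.mpr ⟨rfl, rfl⟩,
        fun h => by have := (iso_mem_nb.mp h).2.2; omega⟩
    · refine ⟨nb i a 0, (isClopen_nb h𝒜 i a 0).2, lim_mem_nb.mpr ⟨rfl, rfl⟩, fun h => hxy ?_⟩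
      obtain ⟨rfl, rfl⟩ := lim_mem_nb.mp h
      rfl

lemma t35 (h𝒜 : IsMAD 𝒜) : T35Space (PsiSum 𝒜) := by
  have h1 := t1 h𝒜
  have h2 : CompletelyRegularSpace (PsiSum 𝒜) := by
    apply CompletelyRegularSpace.of_isTopologicalBasis_clopens
    refine TopologicalSpace.isTopologicalBasis_of_isOpen_of_nhds (fun s hs => hs.2) ?_
    intro x U hx hU
    obtain ⟨N, hN⟩ := exists_B_subset hU hx
    exact ⟨B x N, isClopen_B h𝒜 x N, mem_B x N, hN⟩
  exact { }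

end PsiSum

end Pool.Agent.Lib.MP_a29c66_gt
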