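import Pool.Agent.Lib.MP_a29c66_gt.Fan
import Pool.Agent.Lib.MP_a29c66_gt.Psi

/-!
# The product of the Fréchet fan with `PsiSum 𝒜` is a `k_R`-space but not a `k`-space
-/

open Set Filter Topology

namespace Pool.Agent.Lib.MP_a29c66_gt

variable {𝒜 : Set (Set ℕ)}

namespace PsiSum

/-- the isolated points are dense -/
lemma exists_iso_mem (h𝒜 : IsMAD 𝒜) {U : Set (PsiSum 𝒜)} (hU : IsOpen U) (hne : U.Nonempty) :
    ∃ i k, iso i k ∈ U := by
  obtain ⟨x, hx⟩ := hne
  rcases cases x with rfl | ⟨i, k, rfl⟩ | ⟨i, a, rfl⟩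
  · obtain ⟨N, hN⟩ := hU.2 hx
    exact ⟨N, 0, (hN N le_rfl).1 0⟩
  · exact ⟨i, k, hx⟩
  · have hfin := hU.1 i a hx
    have hinf := h𝒜.inf a.1 a.2
    obtain ⟨k, hk⟩ := (hinf.sdiff hfin).nonempty
    refine ⟨i, k, ?_⟩
    by_contra h
    exact hk.2 ⟨hk.1, h⟩

/-- every sequence of isolated points has a convergent subsequence -/
lemma exists_subseq (h𝒜 : IsMAD 𝒜) (u : ℕ → ℕ × ℕ) :
    ∃ (z : PsiSum 𝒜) (φ : ℕ → ℕ), StrictMono φ ∧
      Tendsto (fun j => iso (u (φ j)).1 (u (φ j)).2) atTop (𝓝 z) := by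
  by_cases h1 : ∃ e, ∃ᶠ j in atTop, u j = e
  · -- a constant subsequence
    obtain ⟨e, he⟩ := h1
    obtain ⟨φ, hφ, hφe⟩ := extraction_of_frequently_atTop he
    refine ⟨iso e.1 e.2, φ, hφ, ?_⟩
    simp only [hφe]
    exact tendsto_const_nhds
  simp only [not_exists, not_frequently] at h1
  by_cases h2 : ∃ i, ∃ᶠ j in atTop, (u j).1 = i
  · obtain ⟨i, hi⟩ := h2
    let S : Set ℕ := {k | ∃ j, u j = (i, k)}
    have hS : S.Infinite := by
      intro hfin
      have : ∀ᶠ j in atTop, ∀ k ∈ S, u j ≠ (i, k) := by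
        rw [hfin.eventually_all]
        intro k _
        exact h1 (i, k)
      obtain ⟨j, hj1, hj2⟩ := (hi.and_eventually this).exists
      exact hj2 (u j).2 ⟨j, by rw [← hj1]⟩ (by rw [← hj1])
    obtain ⟨a, ha, hinf⟩ := h𝒜.max S hS
    have hfreq : ∀ M : ℕ, ∃ᶠ j in atTop, (u j).1 = i ∧ (u j).2 ∈ a ∧ M ≤ (u j).2 := by
      intro M
      rw [frequently_atTop]
      intro J
      -- finitely many indices below `J` cannot exhaust
      have hfin : ((fun j => (u j).2) '' Iio J ∪ Iio M).Finite :=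
        ((Set.finite_Iio J).image _).union (Set.finite_Iio M)
      obtain ⟨k, hk⟩ := (hinf.sdiff hfin).nonempty
      obtain ⟨⟨hka, j, hj⟩, hk2⟩ := hk
      have hjJ : J ≤ j := by
        by_contra h
        exact hk2 (Or.inl ⟨j, not_le.mp h, by simp only [hj]⟩)
      have hkM : M ≤ k := by
        by_contra h
        exact hk2 (Or.inr (not_le.mp h))
      refine ⟨j, hjJ, ?_⟩
      rw [hj]
      exact ⟨rfl, hka, hkM⟩
    obtain ⟨φ, hφ, hφ'⟩ := extraction_forall_of_frequently hfreq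
    refine ⟨lim i ⟨a, ha⟩, φ, hφ, ?_⟩
    rw [tendsto_nhds]
    intro U hU hx
    obtain ⟨N, hN⟩ := exists_B_subset hU hx
    filter_upwards [eventually_ge_atTop N] with j hj
    obtain ⟨e1, e2, e3⟩ := hφ' j
    apply hN
    show iso (u (φ j)).1 (u (φ j)).2 ∈ nb i ⟨a, ha⟩ N
    exact iso_mem_nb.mpr ⟨e1, e2, hj.trans e3⟩
  · simp only [not_exists, not_frequently] at h2
    refine ⟨inf, id, strictMono_id, ?_⟩
    rw [tendsto_nhds]
    intro U hU hx
    obtain ⟨N, hN⟩ := exists_B_subset hU hx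
    have : ∀ᶠ j in atTop, ∀ i ∈ Iio N, (u j).1 ≠ i := by
      rw [(Set.finite_Iio N).eventually_all]
      intro i _
      exact h2 i
    filter_upwards [this] with j hj
    apply hN
    show iso (u j).1 (u j).2 ∈ tail N
    rw [iso_mem_tail]
    by_contra h
    exact hj _ (not_le.mp h) rfl

end PsiSum

/-- A function continuous on compact sets is sequentially continuous. -/
lemma tendsto_of_continuousOn_compact {Z : Type*} [TopologicalSpace Z] {f : Z → ℝ}
    (hf : ∀ K : Set Z, IsCompact K → ContinuousOn f K) {u : ℕ → Z} {z : Z}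
    (hu : Tendsto u atTop (𝓝 z)) : Tendsto (fun j => f (u j)) atTop (𝓝 (f z)) := by
  have hK := hu.isCompact_insert_range
  have h1 := (hf _ hK) z (mem_insert z _)
  refine h1.tendsto.comp (tendsto_nhdsWithin_iff.mpr ⟨hu, ?_⟩)
  exact Eventually.of_forall fun j => mem_insert_of_mem _ ⟨j, rfl⟩

theorem isKRSpace (h𝒜 : IsMAD 𝒜) : IsKRSpace (Fan × PsiSum 𝒜) := by
  have hfc := PsiSum.firstCountable h𝒜
  have ht := PsiSum.t35 h𝒜
  refine ⟨inferInstance, ?_⟩
  intro f hf
  -- continuity in the second variable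
  have hcont : ∀ x : Fan, Continuous fun z : PsiSum 𝒜 => f (x, z) := by
    intro x
    apply SeqContinuous.continuous
    intro u z hu
    exact tendsto_of_continuousOn_compact hf (tendsto_const_nhds.prodMk_nhds hu)
  -- uniform convergence along the spines
  have hunif : ∀ n, ∀ ε > 0, ∃ M, ∀ m, M ≤ m → ∀ z : PsiSum 𝒜,
      |f (Fan.pt n m, z) - f (Fan.inf, z)| ≤ ε := by
    intro n ε hε
    by_contra hcon
    simp only [not_exists, not_forall, not_le] at hcon
    choose m hm z hz using hcon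
    have hdense : ∀ M, ∃ p : ℕ × ℕ,
        ε < |f (Fan.pt n (m M), PsiSum.iso p.1 p.2) - f (Fan.inf, PsiSum.iso p.1 p.2)| := by
      intro M
      obtain ⟨i, k, hik⟩ := PsiSum.exists_iso_mem h𝒜
        (U := {z | ε < |f (Fan.pt n (m M), z) - f (Fan.inf, z)|})
        (isOpen_lt continuous_const ((hcont _).sub (hcont _)).abs) ⟨z M, hz M⟩
      exact ⟨(i, k), hik⟩
    choose p hp using hdense
    obtain ⟨y, φ, hφ, hy⟩ := PsiSum.exists_subseq h𝒜 p
    have hmφ : Tendsto (fun j => m (φ j)) atTop atTop := by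
      refine tendsto_atTop_mono (fun j => ?_) hφ.tendsto_atTop
      exact hm (φ j)
    have h1 := tendsto_of_continuousOn_compact hf
      ((Fan.tendsto_pt n hmφ).prodMk_nhds hy)
    have h2 := tendsto_of_continuousOn_compact hf
      ((tendsto_const_nhds (x := Fan.inf)).prodMk_nhds hy)
    have h3 := (h1.sub h2).abs
    simp only [sub_self, abs_zero] at h3
    have h4 := (h3.eventually (gt_mem_nhds hε)).exists
    obtain ⟨j, hj⟩ := h4
    exact lt_irrefl _ ((hp (φ j)).trans hj)
  rw [continuous_iff_continuousAt]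
  rintro ⟨x, y⟩
  rcases Fan.cases x with rfl | ⟨n, m, rfl⟩
  · -- at the vertex
    rw [Metric.continuousAt_iff']
    intro ε hε
    choose M hM using fun n => hunif n (ε / 3) (by positivity)
    have hV : ∀ᶠ z in 𝓝 y, dist (f (Fan.inf, z)) (f (Fan.inf, y)) < ε / 3 :=
      (Metric.continuousAt_iff'.mp (hcont Fan.inf).continuousAt) (ε / 3) (by positivity)
    have hU : ∀ᶠ x in 𝓝 Fan.inf, x ∈ Fan.nb M :=
      (Fan.isOpen_nb M).mem_nhds (Fan.inf_mem_nb M)
    rw [nhds_prod_eq]
    filter_upwards [hU.prod_mk hV] with q hq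
    obtain ⟨hq1, hq2⟩ := hq
    obtain ⟨x, z⟩ := q
    simp only at hq1 hq2
    rcases hq1 with rfl | ⟨n, m, hnm, rfl⟩
    · exact hq2.trans (by linarith)
    · have h1 := hM n m hnm z
      rw [Real.dist_eq] at hq2 ⊢
      calc |f (Fan.pt n m, z) - f (Fan.inf, y)|
          = |(f (Fan.pt n m, z) - f (Fan.inf, z)) + (f (Fan.inf, z) - f (Fan.inf, y))| := by
            ring_nf
        _ ≤ |f (Fan.pt n m, z) - f (Fan.inf, z)| + |f (Fan.inf, z) - f (Fan.inf, y)| :=
            abs_add_le _ _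
        _ < ε := by linarith
  · -- at an isolated point
    have h1 : 𝓝 (Fan.pt n m) = pure (Fan.pt n m) := by
      apply le_antisymm
      · rw [le_pure_iff]
        exact (Fan.isClopen_singleton n m).2.mem_nhds rfl
      · exact pure_le_nhds _
    rw [ContinuousAt, nhds_prod_eq, h1, pure_prod, tendsto_map'_iff]
    exact (hcont (Fan.pt n m)).tendsto y

/-- A closed subset of a compact set is finite if it is discrete. -/
lemma finite_of_isolated {Z : Type*} [TopologicalSpace Z] {S K : Set Z} (hK : IsCompact K)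
    (hS : IsClosed S) (hSK : S ⊆ K) (hdisc : ∀ y ∈ S, ∃ U, IsOpen U ∧ U ∩ S = {y}) :
    S.Finite := by
  have h1 : DiscreteTopology S := discreteTopology_subtype_iff'.mpr hdisc
  exact (hK.of_isClosed_subset hS hSK).finite (isDiscrete_iff_discreteTopology.mpr h1)

theorem not_isKSpace (h𝒜 : IsMAD 𝒜) : ¬ IsKSpace (Fan × PsiSum 𝒜) := by
  intro hk
  have ht1 := PsiSum.t1 h𝒜
  obtain ⟨a, hainj, haA⟩ := h𝒜.infinite
  let b : ℕ → 𝒜 := fun m => ⟨a m, haA m⟩
  have hb : Function.Injective b := fun m m' h => hainj (congrArg Subtype.val h)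
  let F : Set (Fan × PsiSum 𝒜) := range fun p : ℕ × ℕ => (Fan.pt p.1 p.2, PsiSum.lim p.1 (b p.2))
  have hclosed : IsClosed F := by
    apply hk F
    intro K hK
    -- the trace on a compact set is finite
    let I : Set ℕ := {n | ∃ m, (Fan.pt n m, PsiSum.lim n (b m)) ∈ K}
    have hI : I.Finite := by
      have hch : ∀ n, ∃ m, n ∈ I → (Fan.pt n m, PsiSum.lim n (b m)) ∈ K := by
        intro n
        by_cases hn : n ∈ I
        · obtain ⟨m, hm⟩ := hn
          exact ⟨m, fun _ => hm⟩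
        · exact ⟨0, fun h => absurd h hn⟩
      choose g hg using hch
      have hSfin : ((fun n => Fan.pt n (g n)) '' I).Finite := by
        refine finite_of_isolated (hK.image continuous_fst) ?_ ?_ ?_
        · refine ⟨fun _ n => ?_⟩
          refine (Set.finite_singleton (g n)).subset ?_
          intro m hm
          simp only [mem_compl_iff, not_not, mem_ofPred_eq] at hm
          obtain ⟨n', _, h⟩ := hm
          obtain ⟨rfl, rfl⟩ := Fan.pt_inj.mp h
          rfl
        · rintro _ ⟨n, hn, rfl⟩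
          exact ⟨_, hg n hn, rfl⟩
        · rintro _ ⟨n, hn, rfl⟩
          refine ⟨{Fan.pt n (g n)}, (Fan.isClopen_singleton _ _).2, ?_⟩
          rw [inter_eq_left]
          exact singleton_subset_iff.mpr ⟨n, hn, rfl⟩
      refine Set.Finite.of_finite_image hSfin ?_
      intro n _ n' _ h
      exact (Fan.pt_inj.mp h).1
    have hJ : ∀ n, {m | (Fan.pt n m, PsiSum.lim n (b m)) ∈ K}.Finite := by
      intro n
      have hSfin : ((fun m => PsiSum.lim n (b m)) ''
          {m | (Fan.pt n m, PsiSum.lim n (b m)) ∈ K}).Finite := by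
        refine finite_of_isolated (hK.image continuous_snd) ?_ ?_ ?_
        · refine ⟨fun i c _ => ?_, fun _ => ⟨n + 1, fun i hi => ⟨fun k hk => ?_, fun c hc => ?_⟩⟩⟩
          · have : {k | k ∈ c.1 ∧ (PsiSum.iso i k : PsiSum 𝒜) ∉
                ((fun m => PsiSum.lim n (b m)) ''
                  {m | (Fan.pt n m, PsiSum.lim n (b m)) ∈ K})ᶜ} = ∅ := by
              ext k
              simp only [mem_compl_iff, not_not, mem_ofPred_eq, mem_empty_iff_false, iff_false,
                not_and]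
              rintro _ ⟨m, _, h⟩
              exact PsiSum.iso_ne_lim _ _ _ _ h.symm
            rw [this]
            exact finite_empty
          · obtain ⟨m, _, h⟩ := hk
            exact PsiSum.iso_ne_lim _ _ _ _ h.symm
          · obtain ⟨m, _, h⟩ := hc
            have := (PsiSum.lim_inj.mp h).1
            omega
        · rintro _ ⟨m, hm, rfl⟩
          exact ⟨_, hm, rfl⟩
        · rintro _ ⟨m, hm, rfl⟩
          refine ⟨PsiSum.nb n (b m) 0, (PsiSum.isClopen_nb h𝒜 _ _ _).2, ?_⟩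
          ext y
          simp only [mem_inter_iff, mem_singleton_iff]
          constructor
          · rintro ⟨h1, m', _, rfl⟩
            obtain ⟨_, h2⟩ := PsiSum.lim_mem_nb.mp h1
            simp only [h2]
          · rintro rfl
            exact ⟨PsiSum.lim_mem_nb.mpr ⟨rfl, rfl⟩, m, hm, rfl⟩
      refine Set.Finite.of_finite_image hSfin ?_
      intro m _ m' _ h
      exact hb (PsiSum.lim_inj.mp h).2
    have hfin : (F ∩ K).Finite := by
      have : F ∩ K ⊆ ⋃ n ∈ I, (fun m => (Fan.pt n m, PsiSum.lim n (b m))) ''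
          {m | (Fan.pt n m, PsiSum.lim n (b m)) ∈ K} := by
        rintro _ ⟨⟨⟨n, m⟩, rfl⟩, hK'⟩
        simp only [mem_iUnion, exists_prop]
        exact ⟨n, ⟨m, hK'⟩, m, hK', rfl⟩
      exact (hI.biUnion fun n _ => (hJ n).image _).subset this
    have hcl : IsClosed (F ∩ K) := hfin.isClosed
    have : (fun z : K => (z : Fan × PsiSum 𝒜)) ⁻¹' F =
        (fun z : K => (z : Fan × PsiSum 𝒜)) ⁻¹' (F ∩ K) := by
      ext z
      simp
    rw [this]
    exact hcl.preimage continuous_subtype_val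
  -- but the point `(∞, ∞)` is in the closure
  have hmem : (Fan.inf, (PsiSum.inf : PsiSum 𝒜)) ∈ closure F := by
    rw [mem_closure_iff_nhds]
    intro O hO
    rw [nhds_prod_eq] at hO
    obtain ⟨U, hU, V, hV, hUV⟩ := mem_prod_iff.mp hO
    obtain ⟨U', hU'U, hU'o, hU'⟩ := mem_nhds_iff.mp hU
    obtain ⟨V', hV'V, hV'o, hV'⟩ := mem_nhds_iff.mp hV
    obtain ⟨g, hg⟩ := Fan.exists_nb_subset hU'o hU'
    obtain ⟨N, hN⟩ := hV'o.2 hV'
    refine ⟨(Fan.pt N (g N), PsiSum.lim N (b (g N))), hUV ⟨?_, ?_⟩, (N, g N), rfl⟩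
    · exact hU'U (hg (Fan.pt_mem_nb.mpr le_rfl))
    · exact hV'V ((hN N le_rfl).2 _)
  rw [hclosed.closure_eq] at hmem
  obtain ⟨⟨n, m⟩, h⟩ := hmem
  exact Fan.pt_ne_inf n m (Prod.mk.inj h).1

end Pool.Agent.Lib.MP_a29c66_gt
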